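import Pool.Agent.P.MP_a60a76_nt.Sz.Main

/-! A counterexample to the Frey-Mazur conjecture has few primes of potentially multiplicative
reduction compared with its height. -/

namespace Pool.Agent.Results.MP_a60a76_nt.RadicalBound

open Pool.Agent.P.MP_a60a76_nt.SP

theorem result : ∃ C : ℝ, ∀ p : ℕ, p.Prime → ∀ (E₁ E₂ : WeierstrassCurve ℚ)
    [E₁.IsElliptic] [E₂.IsElliptic], Congruent p E₁ E₂ → ¬ Isogenous E₁ E₂ →
    ∑ l ∈ (E₁.j.den * E₂.j.den).primeFactors.erase p, Real.log l ≤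
      C * (p : ℝ) ^ (-(1 / 3) : ℝ) * (Real.log p + Real.log
        (max (max E₁.j.num.natAbs E₁.j.den) (max E₂.j.num.natAbs E₂.j.den) : ℕ)) :=
  Pool.Agent.P.MP_a60a76_nt.Sz.radical_bound

end Pool.Agent.Results.MP_a60a76_nt.RadicalBound
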